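import Pool.Agent.Lib.MP_021685_agUZ.ZD
import Pool.Agent.Lib.MP_021685_agUX.UDM

/-! Definitions used in the statement of `MP_021685_ag.UnitaryType`: the statement for `A` and for the products `B × A`. -/

set_option autoImplicit false

namespace TUT

open TensorProduct Pool.Agent.Lib.MP_17a322_nt.VA Pool.Agent.Lib.MP_021685_agTT

/-- There is a Lie algebra `g` with a multiplier `c` as in `IsMixed`. -/
def HasMixed {H : Type} [AddCommGroup H] [Module ℂ H] {G : Type} [Group G] (ρ : Representation ℂ G H) (μ : G →* ℂˣ)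
    (P : Subgroup G → Prop) (HB : Submodule ℂ H) : Prop :=
  ∃ (g : Submodule ℂ (Module.End ℂ H)) (c : Module.End ℂ H → ℂ), IsMixed ρ μ P g c HB

/-- The theorems for the product `B × A`, where `W` with `τ` is the Tate module of `B × A`, `V` with `ρ` that of `A`: all the Tate
classes on all the powers of `B × A` are sums of products of Tate classes of degree two if and only if this is so in degree four for
the fourth power of `B × A`, and for all the powers of `A`; if and only if this is so in degree four for the fourth power of `B × A`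
and the multiplicities for `A` are not degenerate. -/
def Product {K : Type} [Field K] {l : ℕ} [Fact l.Prime] {V W : Type} [AddCommGroup V] [Module ℚ_[l] V] [AddCommGroup W]
    [Module ℚ_[l] W] [Algebra ℚ_[l] ℂ] {r : ℕ} {E : Fin r → Type} [∀ i, Field (E i)] [∀ i, NumberField (E i)]
    (τ : Representation ℚ_[l] (GalK K) W) (ρ : Representation ℚ_[l] (GalK K) V) (a : (∀ i, E i) →+* Module.End ℚ_[l] V)
    (n : (K →+* ℂ) → (Σ i, E i →+* ℂ) → ℕ) (N : Fin r → ℕ) : Prop :=
  (AllTate τ ↔ FourTate τ 1 ∧ AllTate ρ) ∧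
    (IsSerre (repC ρ) (IsFix K) (part a) n → AllTate τ → Nondeg n) ∧
    (IsShimura n N → FourTate τ 1 → Nondeg n → AllTate τ)

/-- The theorems on the abelian varieties `A` all whose simple factors are of type IV, and on the products `B × A`, where `B` has
no simple factors of type III or IV; `V'` with `ρ'` is the Tate module of `B`, `e'` the Weil form of a polarization. -/
def MainB : Prop :=
  ∀ (K : Type) [Field K] (M : ℕ) (A : AV K M) (l : ℕ) [Fact l.Prime] [Algebra ℚ_[l] ℂ]
    (V : Type) [AddCommGroup V] [Module ℚ_[l] V] [FiniteDimensional ℚ_[l] V] (ι : (ℕ → A.Pts (AlgebraicClosure K)) → V)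
    (ρ : Representation ℚ_[l] (GalK K) V) (e : V →ₗ[ℚ_[l]] V →ₗ[ℚ_[l]] ℚ_[l])
    (D : Type) [Ring D] [Algebra ℚ D] (b : D →+* Module.End ℚ_[l] V)
    (r : ℕ) (E : Fin r → Type) [∀ i, Field (E i)] [∀ i, NumberField (E i)] (c : (∀ i, E i) →+* D)
    (t : (∀ i, E i) → K) (n : (K →+* ℂ) → (Σ i, E i →+* ℂ) → ℕ) (N : Fin r → ℕ),
    IsUnitary A l ι ρ e b c t n N → CriterionAll ρ (b.comp c) n N ∧ SeparatedAll ρ (b.comp c) n N ∧
      ∀ (M' : ℕ) (B : AV K M') (V' : Type) [AddCommGroup V'] [Module ℚ_[l] V'] [FiniteDimensional ℚ_[l] V']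
        (ι' : (ℕ → B.Pts (AlgebraicClosure K)) → V') (ρ' : Representation ℚ_[l] (GalK K) V')
        (e' : V' →ₗ[ℚ_[l]] V' →ₗ[ℚ_[l]] ℚ_[l]), IsGalMod B l ι' ρ' → IsWeilForm (fun s => ρ' s) e' →
          HasMixed (repC (ρ'.prod ρ)) (charC (cyc K l)) (IsFix K) (LinearMap.range ((LinearMap.inl ℚ_[l] V' V).baseChange ℂ)) →
            Product (ρ'.prod ρ) ρ (b.comp c) n N

end TUT
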