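import Pool.Agent.Lib.MP_021685_agUZ.ZD

/-! The commutants of `g` and of `ρ` are the same. -/

set_option autoImplicit false

namespace TUT

open Module Pool.Agent.Lib.MP_021685_agO

variable {H : Type} [AddCommGroup H] [Module ℂ H] {G : Type} [Group G]
  {ρ : Representation ℂ G H} {μ : G →* ℂˣ} {P : Subgroup G → Prop} {g : Submodule ℂ (Module.End ℂ H)} {c : Module.End ℂ H → ℂ}
  {HB : Submodule ℂ H} {e : H →ₗ[ℂ] H →ₗ[ℂ] ℂ}

/-- The bilinear form `B` as a multilinear form of two variables. -/
private def Z1form (B : H →ₗ[ℂ] H →ₗ[ℂ] ℂ) : MultilinearMap ℂ (fun _ : Fin 2 => H) ℂ where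
  toFun v := B (v 0) (v 1)
  map_update_add' := by
    intro inst v i x y
    have hinst : inst = instDecidableEqFin 2 := Subsingleton.elim _ _
    subst hinst
    rcases Fin.exists_fin_two.1 ⟨i, rfl⟩ with h | h
    · subst h
      simp [Function.update_self, Function.update_of_ne]
    · subst h
      simp [Function.update_self, Function.update_of_ne]
  map_update_smul' := by
    intro inst v i c x
    have hinst : inst = instDecidableEqFin 2 := Subsingleton.elim _ _
    subst hinst
    rcases Fin.exists_fin_two.1 ⟨i, rfl⟩ with h | h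
    · subst h
      simp [Function.update_self, Function.update_of_ne]
    · subst h
      simp [Function.update_self, Function.update_of_ne]

private theorem Z1form_apply (B : H →ₗ[ℂ] H →ₗ[ℂ] ℂ) (v : Fin 2 → H) : Z1form B v = B (v 0) (v 1) := rfl

/-- The multilinear form `T` of two variables as a bilinear form. -/
private def Z1bil (T : MultilinearMap ℂ (fun _ : Fin 2 => H) ℂ) : H →ₗ[ℂ] H →ₗ[ℂ] ℂ :=
  LinearMap.mk₂ ℂ (fun u v => T ![u, v])
    (fun u u' v => by
      have h := T.map_update_add ![u, v] 0 u u'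
      have h1 : ∀ x : H, Function.update ![u, v] 0 x = ![x, v] := fun x => by
        ext j
        fin_cases j <;> simp [Function.update]
      rwa [h1, h1, h1] at h)
    (fun a u v => by
      have h := T.map_update_smul ![u, v] 0 a u
      have h1 : ∀ x : H, Function.update ![u, v] 0 x = ![x, v] := fun x => by
        ext j
        fin_cases j <;> simp [Function.update]
      rwa [h1, h1] at h)
    (fun u v v' => by
      have h := T.map_update_add ![u, v] 1 v v'
      have h1 : ∀ x : H, Function.update ![u, v] 1 x = ![u, x] := fun x => by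
        ext j
        fin_cases j <;> simp [Function.update]
      rwa [h1, h1, h1] at h)
    (fun a u v => by
      have h := T.map_update_smul ![u, v] 1 a v
      have h1 : ∀ x : H, Function.update ![u, v] 1 x = ![u, x] := fun x => by
        ext j
        fin_cases j <;> simp [Function.update]
      rwa [h1, h1] at h)

private theorem Z1bil_apply (T : MultilinearMap ℂ (fun _ : Fin 2 => H) ℂ) (v : Fin 2 → H) :
    T v = Z1bil T (v 0) (v 1) := by
  have h : v = ![v 0, v 1] := by
    ext j
    fin_cases j <;> rfl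
  rw [Z1bil, LinearMap.mk₂_apply, ← h]

private theorem Z1_rho_inv (ρ : Representation ℂ G H) (s : G) (w : H) : ρ s (ρ s⁻¹ w) = w := by
  rw [← Module.End.mul_apply, ← map_mul, mul_inv_cancel, map_one, Module.End.one_apply]

/-- If `e (φ u) v` is a Tate form, `φ` commutes with `ρ s`. -/
private theorem Z1_comm (he : ∀ s u v, e (ρ s u) (ρ s v) = (μ s : ℂ) * e u v) (hn : ∀ u, (∀ v, e u v = 0) → u = 0)
    (φ : Module.End ℂ H) (s : G) (h : ∀ u v, e (φ (ρ s u)) (ρ s v) = (μ s : ℂ) * e (φ u) v) : φ * ρ s = ρ s * φ := by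
  refine LinearMap.ext fun u => ?_
  rw [Module.End.mul_apply, Module.End.mul_apply, ← sub_eq_zero]
  refine hn _ fun w => ?_
  have h1 := h u (ρ s⁻¹ w)
  have h2 := he s (φ u) (ρ s⁻¹ w)
  rw [Z1_rho_inv] at h1 h2
  rw [map_sub, LinearMap.sub_apply, h1, h2, sub_self]

private theorem Z1_mult (hM : IsMixed ρ μ P g c HB) (hP : ∃ G', P G') (B : H →ₗ[ℂ] H →ₗ[ℂ] ℂ)
    (hB : ∀ s u v, B (ρ s u) (ρ s v) = (μ s : ℂ) * B u v) {X : Module.End ℂ H} (hX : X ∈ g) (u v : H) :
    B (X u) v + B u (X v) = c X * B u v := by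
  obtain ⟨G', hG'⟩ := hP
  have h1 : IsTt ρ μ G' 1 (Z1form B) := by
    intro s _ v
    rw [Z1form_apply, Z1form_apply, hB, zpow_one]
  have h2 := (hM.tate 2 1 (Z1form B)).2 (Submodule.subset_span ⟨G', hG', h1⟩) X hX ![u, v]
  rw [Fin.sum_univ_two] at h2
  simp only [Z1form_apply] at h2
  simpa [Function.update_self, Function.update_of_ne] using h2

variable [FiniteDimensional ℂ H]

theorem IsMixed.pairing (hM : IsMixed ρ μ P g c HB) (hP : ∃ G', P G') (he : ∀ s u v, e (ρ s u) (ρ s v) = (μ s : ℂ) * e u v)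
    (hn : ∀ u, (∀ v, e u v = 0) → u = 0) (T : MultilinearMap ℂ (fun _ : Fin 2 => H) ℂ) (h : IsTateForm g c 2 T) (s : G)
    (v : Fin 2 → H) : T (fun j => ρ s (v j)) = (μ s : ℂ) * T v := by
  have hT : T ∈ Submodule.span ℂ {T' : MultilinearMap ℂ (fun _ : Fin 2 => H) ℂ | ∃ G', P G' ∧ IsTt ρ μ G' 1 T'} := by
    refine (hM.tate 2 1 T).1 fun X hX v => ?_
    rw [h X hX v]
    norm_num
  have hinj : Function.Injective e := by
    rw [← LinearMap.ker_eq_bot, LinearMap.ker_eq_bot']
    exact fun u hu => hn u fun v => by rw [hu, LinearMap.zero_apply]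
  have hsurj : Function.Surjective e :=
    (LinearMap.injective_iff_surjective_of_finrank_eq_finrank (f := e)
      (Subspace.dual_finrank_eq (K := ℂ) (V := H)).symm).1 hinj
  clear h
  induction hT using Submodule.span_induction with
  | mem T' hT' =>
    obtain ⟨G', hG', hT'⟩ := hT'
    let E : H ≃ₗ[ℂ] Module.Dual ℂ H := LinearEquiv.ofBijective e ⟨hinj, hsurj⟩
    let φ : Module.End ℂ H := (E.symm : Module.Dual ℂ H →ₗ[ℂ] H) ∘ₗ Z1bil T'
    have hφ : ∀ u w, e (φ u) w = Z1bil T' u w := by
      intro u w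
      have h3 : e (φ u) = Z1bil T' u := E.apply_symm_apply (Z1bil T' u)
      rw [h3]
    have h4 : ∀ s ∈ G', φ * ρ s = ρ s * φ := by
      intro s hs
      refine Z1_comm he hn φ s fun u w => ?_
      rw [hφ, hφ]
      have h5 := hT' s hs ![u, w]
      rw [Z1bil_apply, Z1bil_apply, zpow_one] at h5
      simpa using h5
    have h6 := (hM.endo G' hG' φ h4).1 s
    rw [Z1bil_apply, Z1bil_apply T' v, ← hφ, ← hφ, ← he, ← Module.End.mul_apply, ← Module.End.mul_apply, h6]
  | zero => simp
  | add x y _ _ hx hy => rw [add_apply, add_apply, hx, hy, mul_add]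
  | smul a x _ hx => rw [smul_apply, smul_apply, hx, smul_eq_mul, smul_eq_mul, mul_left_comm]

theorem IsMixed.comm_iff (hM : IsMixed ρ μ P g c HB) (hP : ∃ G', P G') (he : ∀ s u v, e (ρ s u) (ρ s v) = (μ s : ℂ) * e u v)
    (hn : ∀ u, (∀ v, e u v = 0) → u = 0) (φ : Module.End ℂ H) :
    (∀ X ∈ g, φ * X = X * φ) ↔ ∀ s, φ * ρ s = ρ s * φ := by
  constructor
  · intro h s
    refine Z1_comm he hn φ s fun u v => ?_
    have h1 : IsTateForm g c 2 (Z1form (e ∘ₗ φ)) := by
      intro X hX v
      rw [Fin.sum_univ_two]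
      have h2 := Z1_mult hM hP e he hX (φ (v 0)) (v 1)
      have h3 : φ (X (v 0)) = X (φ (v 0)) := by
        rw [← Module.End.mul_apply, h X hX, Module.End.mul_apply]
      simp only [Z1form_apply, LinearMap.comp_apply]
      rw [Function.update_self, Function.update_self, Function.update_of_ne (by decide), Function.update_of_ne (by decide), h3, h2]
      norm_num
    exact hM.pairing hP he hn _ h1 s ![u, v]
  · intro h X hX
    refine LinearMap.ext fun u => ?_
    rw [Module.End.mul_apply, Module.End.mul_apply, ← sub_eq_zero]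
    refine hn _ fun w => ?_
    have h1 := Z1_mult hM hP (e ∘ₗ φ) (fun s u v => by
      rw [LinearMap.comp_apply, LinearMap.comp_apply, ← he, ← Module.End.mul_apply, h s, Module.End.mul_apply]) hX u w
    have h2 := Z1_mult hM hP e he hX (φ u) w
    rw [LinearMap.comp_apply, LinearMap.comp_apply] at h1
    rw [map_sub, LinearMap.sub_apply]
    linear_combination h1 - h2

end TUT
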