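import Pool.Agent.Lib.MP_021685_agUZ.Z1

/-!
# The symplectic form on a simple subspace of the part of the first factor
-/

set_option autoImplicit false

namespace TUT

open Module Pool.Agent.Lib.MP_021685_agO

variable {H : Type} [AddCommGroup H] [Module ℂ H] [FiniteDimensional ℂ H] {G : Type} [Group G]
  {ρ : Representation ℂ G H} {μ : G →* ℂˣ} {P : Subgroup G → Prop} {g : Submodule ℂ (Module.End ℂ H)} {c : Module.End ℂ H → ℂ}
  {HB : Submodule ℂ H} {e : H →ₗ[ℂ] H →ₗ[ℂ] ℂ}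

/-- The form with two arguments of a bilinear form. -/
private def Z2_form (B : H →ₗ[ℂ] H →ₗ[ℂ] ℂ) : MultilinearMap ℂ (fun _ : Fin 2 => H) ℂ where
  toFun v := B (v 0) (v 1)
  map_update_add' := by
    intro inst v i x y
    have hinst : inst = instDecidableEqFin 2 := Subsingleton.elim _ _
    subst hinst
    rcases Fin.exists_fin_two.1 ⟨i, rfl⟩ with h | h
    · subst h
      simp [Function.update_self, Function.update_of_ne]
    · subst h
      simp [Function.update_self, Function.update_of_ne]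
  map_update_smul' := by
    intro inst v i c x
    have hinst : inst = instDecidableEqFin 2 := Subsingleton.elim _ _
    subst hinst
    rcases Fin.exists_fin_two.1 ⟨i, rfl⟩ with h | h
    · subst h
      simp [Function.update_self, Function.update_of_ne]
    · subst h
      simp [Function.update_self, Function.update_of_ne]

omit [FiniteDimensional ℂ H] in
private theorem Z2_form_apply (B : H →ₗ[ℂ] H →ₗ[ℂ] ℂ) (v : Fin 2 → H) : Z2_form B v = B (v 0) (v 1) := rfl

omit [FiniteDimensional ℂ H] in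
/-- A pairing has the multiplier `c` for `g`. -/
private theorem Z2_mult (hM : IsMixed ρ μ P g c HB) (hP : ∃ G', P G') (γ : H →ₗ[ℂ] H →ₗ[ℂ] ℂ)
    (hγ : ∀ s u v, γ (ρ s u) (ρ s v) = (μ s : ℂ) * γ u v) (X : Module.End ℂ H) (hX : X ∈ g) (u v : H) :
    γ (X u) v + γ u (X v) = c X * γ u v := by
  obtain ⟨G', hG'⟩ := hP
  have h1 : IsTt ρ μ G' 1 (Z2_form γ) := by
    intro s _ v
    rw [Z2_form_apply, Z2_form_apply, hγ, zpow_one]
  have h2 := (hM.tate 2 1 (Z2_form γ)).2 (Submodule.subset_span ⟨G', hG', h1⟩) X hX ![u, v]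
  rw [Fin.sum_univ_two] at h2
  simp only [Z2_form_apply] at h2
  simpa [Function.update_self, Function.update_of_ne] using h2

/-- Schur's lemma for the forms with multiplier `c` on a simple subspace. -/
private theorem Z2_schur {V : Submodule ℂ H} (hV : IsSimpleSub g V) {β γ : H →ₗ[ℂ] H →ₗ[ℂ] ℂ} (hβ : IsSympl g c V β)
    (hγ : ∀ X ∈ g, ∀ u ∈ V, ∀ v ∈ V, γ (X u) v + γ u (X v) = c X * γ u v) :
    ∃ a : ℂ, ∀ u ∈ V, ∀ v ∈ V, γ u v = a * β u v := by
  have hnt : Nontrivial V := Submodule.nontrivial_iff_ne_bot.2 hV.1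
  let β' : V →ₗ[ℂ] Dual ℂ V := β.compl₁₂ V.subtype V.subtype
  let γ' : V →ₗ[ℂ] Dual ℂ V := γ.compl₁₂ V.subtype V.subtype
  have hβ' : ∀ u v : V, β' u v = β u v := fun u v => rfl
  have hγ' : ∀ u v : V, γ' u v = γ u v := fun u v => rfl
  have h1 : Function.Injective β' := LinearMap.ker_eq_bot.1 (LinearMap.ker_eq_bot'.2 fun u hu =>
    Subtype.ext (hβ.nondeg u u.2 fun v hv => by
      have := LinearMap.congr_fun hu ⟨v, hv⟩
      rwa [hβ'] at this))
  have h2 : finrank ℂ V = finrank ℂ (Dual ℂ V) := (Subspace.dual_finrank_eq (K := ℂ) (V := V)).symm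
  have h3 : Function.Surjective β' := (LinearMap.injective_iff_surjective_of_finrank_eq_finrank h2).1 h1
  let e : V ≃ₗ[ℂ] Dual ℂ V := LinearEquiv.ofBijective β' ⟨h1, h3⟩
  let φ : Module.End ℂ V := e.symm.toLinearMap ∘ₗ γ'
  have hφ : ∀ u v : V, β (φ u) v = γ u v := by
    intro u v
    have h4 : e (φ u) = γ' u := e.apply_symm_apply (γ' u)
    have h5 : e (φ u) = β' (φ u) := rfl
    rw [← hβ', ← h5, h4, hγ']
  obtain ⟨a, ha⟩ := Module.End.exists_eigenvalue φ
  obtain ⟨w, hw⟩ := ha.exists_hasEigenvector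
  refine ⟨a, ?_⟩
  let W : Submodule ℂ H :=
    { carrier := {u | u ∈ V ∧ ∀ v ∈ V, γ u v = a * β u v}
      add_mem' := fun {x y} hx hy => ⟨V.add_mem hx.1 hy.1, fun v hv => by
        rw [map_add, map_add, LinearMap.add_apply, LinearMap.add_apply, hx.2 v hv, hy.2 v hv, mul_add]⟩
      zero_mem' := ⟨V.zero_mem, fun v _ => by rw [map_zero, map_zero, LinearMap.zero_apply, mul_zero]⟩
      smul_mem' := fun r x hx => ⟨V.smul_mem r hx.1, fun v hv => by
        rw [map_smul, map_smul, LinearMap.smul_apply, LinearMap.smul_apply, hx.2 v hv, smul_eq_mul, smul_eq_mul,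
          mul_left_comm]⟩ }
  have hWV : W ≤ V := fun x hx => hx.1
  have hWst : IsStable g W := by
    intro X hX u hu
    refine ⟨hV.2.1 X hX u hu.1, fun v hv => ?_⟩
    have e1 := hγ X hX u hu.1 v hv
    have e2 := hβ.mult X hX u hu.1 v hv
    have e3 := hu.2 v hv
    have e4 := hu.2 (X v) (hV.2.1 X hX v hv)
    linear_combination e1 - a * e2 - e4 + c X * e3
  have hwW : (w : H) ∈ W := by
    refine ⟨w.2, fun v hv => ?_⟩
    have e1 := hφ w ⟨v, hv⟩
    rw [hw.apply_eq_smul] at e1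
    rw [← e1]
    show β ((a • w : V) : H) v = a * β w v
    rw [Submodule.coe_smul, map_smul, LinearMap.smul_apply, smul_eq_mul]
  rcases hV.2.2 W hWV hWst with h | h
  · exact absurd (Subtype.ext ((Submodule.mem_bot ℂ).1 (h ▸ hwW))) hw.2
  · intro u hu v hv
    have hu' : u ∈ W := by rw [h]; exact hu
    exact hu'.2 v hv

/-- A stable subspace of a stable decomposition is stable under the commutant of the commutant. -/
private theorem Z2_stable (hM : IsMixed ρ μ P g c HB) (hP : ∃ G', P G')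
    (he : ∀ s u v, e (ρ s u) (ρ s v) = (μ s : ℂ) * e u v) (hn : ∀ u, (∀ v, e u v = 0) → u = 0) {V : Submodule ℂ H}
    (hV : IsStable g V) (s : G) (x : H) (hx : x ∈ V) : ρ s x ∈ V := by
  obtain ⟨V', hV', hc⟩ := hM.alg.semisimple V hV
  have h1 : ∀ X ∈ g, V.projection V' hc * X = X * V.projection V' hc := by
    intro X hX
    refine LinearMap.ext fun y => ?_
    rw [Module.End.mul_apply, Module.End.mul_apply]
    obtain ⟨a, ha, b, hb, rfl⟩ : ∃ a ∈ V, ∃ b ∈ V', a + b = y :=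
      Submodule.mem_sup.1 (by rw [hc.sup_eq_top]; exact Submodule.mem_top)
    have e1 : V.projection V' hc a = a := Submodule.projection_apply_left hc ⟨a, ha⟩
    have e2 : V.projection V' hc b = 0 := Submodule.projection_apply_right hc ⟨b, hb⟩
    have e3 : V.projection V' hc (X a) = X a := Submodule.projection_apply_left hc ⟨X a, hV X hX a ha⟩
    have e4 : V.projection V' hc (X b) = 0 := Submodule.projection_apply_right hc ⟨X b, hV' X hX b hb⟩
    rw [map_add, map_add, map_add, e3, e4, e1, e2, add_zero, add_zero]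
  have h2 := LinearMap.congr_fun ((IsMixed.comm_iff hM hP he hn _).1 h1 s) x
  rw [Module.End.mul_apply, Module.End.mul_apply] at h2
  have e1 : V.projection V' hc x = x := Submodule.projection_apply_left hc ⟨x, hx⟩
  rw [e1] at h2
  rw [← h2]
  exact Submodule.projection_apply_mem hc _

theorem IsMixed.sympl (hM : IsMixed ρ μ P g c HB) (hP : ∃ G', P G') (he : ∀ s u v, e (ρ s u) (ρ s v) = (μ s : ℂ) * e u v)
    (hn : ∀ u, (∀ v, e u v = 0) → u = 0) {V : Submodule ℂ H} (hV : IsSimpleSub g V) (hVB : V ≤ HB) :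
    ∃ β : H →ₗ[ℂ] H →ₗ[ℂ] ℂ, (∀ s u v, β (ρ s u) (ρ s v) = (μ s : ℂ) * β u v) ∧ IsSympl g c V β := by
  obtain ⟨β, hβ, halt, x, hx, y, hy, hxy⟩ := hM.types V hVB hV.1 fun s x hx => Z2_stable hM hP he hn hV.2.1 s x hx
  have hm := Z2_mult hM hP β hβ
  refine ⟨β, hβ, fun X hX u _ v _ => hm X hX u v, fun u _ => halt u, fun u hu h => ?_⟩
  let W : Submodule ℂ H :=
    { carrier := {u | u ∈ V ∧ ∀ v ∈ V, β u v = 0}
      add_mem' := fun {x y} hx hy => ⟨V.add_mem hx.1 hy.1, fun v hv => by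
        rw [map_add, LinearMap.add_apply, hx.2 v hv, hy.2 v hv, add_zero]⟩
      zero_mem' := ⟨V.zero_mem, fun v _ => by rw [map_zero, LinearMap.zero_apply]⟩
      smul_mem' := fun r x hx => ⟨V.smul_mem r hx.1, fun v hv => by
        rw [map_smul, LinearMap.smul_apply, hx.2 v hv, smul_zero]⟩ }
  have hWV : W ≤ V := fun x hx => hx.1
  have hWst : IsStable g W := by
    intro X hX u hu
    refine ⟨hV.2.1 X hX u hu.1, fun v hv => ?_⟩
    have e1 := hm X hX u v
    have e2 := hu.2 v hv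
    have e3 := hu.2 (X v) (hV.2.1 X hX v hv)
    linear_combination e1 - e3 + c X * e2
  rcases hV.2.2 W hWV hWst with h' | h'
  · have hu' : u ∈ W := ⟨hu, h⟩
    rw [h'] at hu'
    exact (Submodule.mem_bot ℂ).1 hu'
  · have hx' : x ∈ W := by rw [h']; exact hx
    exact absurd (hx'.2 y hy) hxy

theorem IsMixed.scalar (hM : IsMixed ρ μ P g c HB) (hP : ∃ G', P G') {V : Submodule ℂ H} (hV : IsSimpleSub g V)
    {β : H →ₗ[ℂ] H →ₗ[ℂ] ℂ} (hβ : IsSympl g c V β) (γ : H →ₗ[ℂ] H →ₗ[ℂ] ℂ)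
    (hγ : ∀ s u v, γ (ρ s u) (ρ s v) = (μ s : ℂ) * γ u v) : ∃ a : ℂ, ∀ u ∈ V, ∀ v ∈ V, γ u v = a * β u v :=
  Z2_schur hV hβ fun X hX u _ v _ => Z2_mult hM hP γ hγ X hX u v

end TUT
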