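import Pool.Agent.Lib.MP_021685_agUZ.Z2
import Pool.Agent.Lib.MP_021685_agO6.Defs

/-!
# Four arguments

The Tate forms with four arguments are on a simple subspace of the part of `B` combinations of the three products of two values of the
symplectic form.
-/

set_option autoImplicit false

namespace TUT

open Module Pool.Agent.Lib.MP_021685_agO Pool.Agent.Lib.MP_021685_agO6

/-- `B (v p) (v q) B (v r) (v s)` is a combination of the three products. -/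
private def Z3_Q {H : Type} [AddCommGroup H] [Module ℂ H] (B : H →ₗ[ℂ] H →ₗ[ℂ] ℂ) (V : Submodule ℂ H) (p q r s : Fin 4) : Prop :=
  ∃ a₁ a₂ a₃ : ℂ, ∀ v : Fin 4 → H, (∀ i, v i ∈ V) → B (v p) (v q) * B (v r) (v s) =
    a₁ * (B (v 0) (v 1) * B (v 2) (v 3)) + a₂ * (B (v 0) (v 2) * B (v 1) (v 3)) + a₃ * (B (v 0) (v 3) * B (v 1) (v 2))

private theorem Z3_base {H : Type} [AddCommGroup H] [Module ℂ H] (B : H →ₗ[ℂ] H →ₗ[ℂ] ℂ) (V : Submodule ℂ H) (p q r s : Fin 4)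
    (h1 : p < q) (h2 : r < s) (h3 : p < r) (h4 : q ≠ r) (h5 : q ≠ s) : Z3_Q B V p q r s := by
  have e1 : p = 0 := by omega
  subst e1
  have e2 : q = 1 ∨ q = 2 ∨ q = 3 := by omega
  rcases e2 with rfl | rfl | rfl
  · have e3 : r = 2 := by omega
    have e4 : s = 3 := by omega
    subst e3 e4
    exact ⟨1, 0, 0, fun v _ => by ring⟩
  · have e3 : r = 1 := by omega
    have e4 : s = 3 := by omega
    subst e3 e4
    exact ⟨0, 1, 0, fun v _ => by ring⟩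
  · have e3 : r = 1 := by omega
    have e4 : s = 2 := by omega
    subst e3 e4
    exact ⟨0, 0, 1, fun v _ => by ring⟩

private theorem Z3_swap₁ {H : Type} [AddCommGroup H] [Module ℂ H] {B : H →ₗ[ℂ] H →ₗ[ℂ] ℂ} {V : Submodule ℂ H}
    (hB : ∀ u ∈ V, ∀ v ∈ V, B u v = - B v u) {p q r s : Fin 4} (h : Z3_Q B V q p r s) : Z3_Q B V p q r s := by
  obtain ⟨a₁, a₂, a₃, h⟩ := h
  refine ⟨-a₁, -a₂, -a₃, fun v hv => ?_⟩
  rw [hB _ (hv p) _ (hv q), neg_mul, h v hv]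
  ring

private theorem Z3_swap₂ {H : Type} [AddCommGroup H] [Module ℂ H] {B : H →ₗ[ℂ] H →ₗ[ℂ] ℂ} {V : Submodule ℂ H}
    (hB : ∀ u ∈ V, ∀ v ∈ V, B u v = - B v u) {p q r s : Fin 4} (h : Z3_Q B V p q s r) : Z3_Q B V p q r s := by
  obtain ⟨a₁, a₂, a₃, h⟩ := h
  refine ⟨-a₁, -a₂, -a₃, fun v hv => ?_⟩
  rw [hB _ (hv r) _ (hv s), mul_neg, h v hv]
  ring

private theorem Z3_swap₃ {H : Type} [AddCommGroup H] [Module ℂ H] {B : H →ₗ[ℂ] H →ₗ[ℂ] ℂ} {V : Submodule ℂ H}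
    {p q r s : Fin 4} (h : Z3_Q B V r s p q) : Z3_Q B V p q r s := by
  obtain ⟨a₁, a₂, a₃, h⟩ := h
  refine ⟨a₁, a₂, a₃, fun v hv => ?_⟩
  rw [mul_comm, h v hv]

private theorem Z3_cases {H : Type} [AddCommGroup H] [Module ℂ H] {B : H →ₗ[ℂ] H →ₗ[ℂ] ℂ} {V : Submodule ℂ H}
    (hB : ∀ u ∈ V, ∀ v ∈ V, B u v = - B v u) {p q r s : Fin 4} (h1 : p ≠ q) (h2 : r ≠ s) (h3 : p ≠ r) (h4 : p ≠ s) (h5 : q ≠ r)
    (h6 : q ≠ s) : Z3_Q B V p q r s := by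
  have hlt : ∀ p q r s : Fin 4, p < q → r < s → p ≠ r → p ≠ s → q ≠ r → q ≠ s → Z3_Q B V p q r s := by
    intro p q r s h1 h2 h3 h4 h5 h6
    rcases lt_or_gt_of_ne h3 with h | h
    · exact Z3_base B V p q r s h1 h2 h h5 h6
    · exact Z3_swap₃ (Z3_base B V r s p q h2 h1 h h4.symm h6.symm)
  rcases lt_or_gt_of_ne h1 with h | h <;> rcases lt_or_gt_of_ne h2 with h' | h'
  · exact hlt p q r s h h' h3 h4 h5 h6
  · exact Z3_swap₂ hB (hlt p q s r h h' h4 h3 h6 h5)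
  · exact Z3_swap₁ hB (hlt q p r s h h' h5 h6 h3 h4)
  · exact Z3_swap₁ hB (Z3_swap₂ hB (hlt q p s r h h' h6 h5 h4 h3))

variable {H : Type} [AddCommGroup H] [Module ℂ H] [FiniteDimensional ℂ H] {G : Type} [Group G]
  {ρ : Representation ℂ G H} {μ : G →* ℂˣ} {P : Subgroup G → Prop} {g : Submodule ℂ (Module.End ℂ H)} {c : Module.End ℂ H → ℂ}
  {HB : Submodule ℂ H} {e : H →ₗ[ℂ] H →ₗ[ℂ] ℂ}

theorem IsMixed.oddFour (hM : IsMixed ρ μ P g c HB) (hP : ∃ G', P G') (he : ∀ s u v, e (ρ s u) (ρ s v) = (μ s : ℂ) * e u v)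
    (hn : ∀ u, (∀ v, e u v = 0) → u = 0)
    (h4 : ∀ G', P G' → ∀ T : MultilinearMap ℂ (fun _ : Fin 4 => H) ℂ, IsTt ρ μ G' 2 T →
      T ∈ Submodule.span ℂ {T' : MultilinearMap ℂ (fun _ : Fin 4 => H) ℂ | IsPg ρ μ T'})
    {V : Submodule ℂ H} (hV : IsSimpleSub g V) (hVB : V ≤ HB) : OddFour g c V := by
  obtain ⟨β, hβρ, hβ⟩ := hM.sympl hP he hn hV hVB
  have hanti : ∀ u ∈ V, ∀ v ∈ V, β u v = - β v u := by
    intro u hu v hv
    have h1 := hβ.alt (u + v) (V.add_mem hu hv)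
    simp only [map_add, LinearMap.add_apply, hβ.alt u hu, hβ.alt v hv] at h1
    linear_combination h1
  refine ⟨hV, β, hβ, fun T hT => ?_⟩
  have h1 : T ∈ Submodule.span ℂ {T' : MultilinearMap ℂ (fun _ : Fin 4 => H) ℂ | ∃ G', P G' ∧ IsTt ρ μ G' 2 T'} := by
    refine (hM.tate 4 2 T).1 fun X hX v => ?_
    rw [hT X hX v]
    norm_num
  have h2 : T ∈ Submodule.span ℂ {T' : MultilinearMap ℂ (fun _ : Fin 4 => H) ℂ | IsPg ρ μ T'} := by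
    refine Submodule.span_le.2 ?_ h1
    rintro T' ⟨G', hG', hT'⟩
    exact h4 G' hG' T' hT'
  refine Submodule.span_induction (p := fun (T : MultilinearMap ℂ (fun _ : Fin 4 => H) ℂ) _ => ∃ a₁ a₂ a₃ : ℂ,
      ∀ v : Fin 4 → H, (∀ i, v i ∈ V) → T v = a₁ * (β (v 0) (v 1) * β (v 2) (v 3)) +
        a₂ * (β (v 0) (v 2) * β (v 1) (v 3)) + a₃ * (β (v 0) (v 3) * β (v 1) (v 2))) ?_ ?_ ?_ ?_ h2
  · rintro T' ⟨m, ε, γ, hγ, hT'⟩
    have hm : m = 2 := by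
      have h3 := Fintype.card_congr ε
      simp only [Fintype.card_sum, Fintype.card_fin] at h3
      omega
    subst hm
    obtain ⟨x, hx⟩ := hM.scalar hP hV hβ (γ 0) (hγ 0)
    obtain ⟨y, hy⟩ := hM.scalar hP hV hβ (γ 1) (hγ 1)
    have hne : ∀ a b : Fin 2 ⊕ Fin 2, a ≠ b → ε a ≠ ε b := fun a b h h' => h (ε.injective h')
    obtain ⟨a₁, a₂, a₃, h3⟩ := Z3_cases hanti (p := ε (Sum.inl 0)) (q := ε (Sum.inr 0)) (r := ε (Sum.inl 1))
      (s := ε (Sum.inr 1)) (hne _ _ (by simp)) (hne _ _ (by simp)) (hne _ _ (by simp)) (hne _ _ (by simp)) (hne _ _ (by simp))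
      (hne _ _ (by simp))
    refine ⟨x * y * a₁, x * y * a₂, x * y * a₃, fun v hv => ?_⟩
    rw [hT', Fin.prod_univ_two, hx _ (hv _) _ (hv _), hy _ (hv _) _ (hv _)]
    have h4 := h3 v hv
    calc x * β (v (ε (Sum.inl 0))) (v (ε (Sum.inr 0))) * (y * β (v (ε (Sum.inl 1))) (v (ε (Sum.inr 1))))
        = x * y * (β (v (ε (Sum.inl 0))) (v (ε (Sum.inr 0))) * β (v (ε (Sum.inl 1))) (v (ε (Sum.inr 1)))) := by ring
      _ = _ := by rw [h4]; ring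
  · exact ⟨0, 0, 0, fun v _ => by simp⟩
  · rintro T₁ T₂ _ _ ⟨a₁, a₂, a₃, ha⟩ ⟨b₁, b₂, b₃, hb⟩
    refine ⟨a₁ + b₁, a₂ + b₂, a₃ + b₃, fun v hv => ?_⟩
    rw [add_apply, ha v hv, hb v hv]
    ring
  · rintro x T₁ _ ⟨a₁, a₂, a₃, ha⟩
    refine ⟨x * a₁, x * a₂, x * a₃, fun v hv => ?_⟩
    rw [smul_apply, ha v hv, smul_eq_mul]
    ring

end TUT
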