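import Pool.Agent.Lib.MP_021685_agUZ.ZD
import Pool.Agent.Lib.MP_021685_agO.OR1

/-!
# The part of the first factor is the sum of its simple subspaces
-/

set_option autoImplicit false

namespace TUT

open Module Pool.Agent.Lib.MP_021685_agO

theorem le_sSup_simple {H : Type} [AddCommGroup H] [Module ℂ H] [FiniteDimensional ℂ H] {g : Submodule ℂ (Module.End ℂ H)}
    {c : Module.End ℂ H → ℂ} (hg : IsGaloisAlg g c) {HB : Submodule ℂ H} (h : IsStable g HB) :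
    HB ≤ sSup {V | IsSimpleSub g V ∧ V ≤ HB} := by
  have hS : sSup {V | IsSimpleSub g V ∧ V ≤ HB} ≤ HB := sSup_le fun V hV => hV.2
  have hSs : IsStable g (sSup {V | IsSimpleSub g V ∧ V ≤ HB}) := by
    intro X hX
    have h1 : sSup {V | IsSimpleSub g V ∧ V ≤ HB} ≤ (sSup {V | IsSimpleSub g V ∧ V ≤ HB}).comap X :=
      sSup_le fun V hV u hu => le_sSup hV (hV.1.2.1 X hX u hu)
    exact fun u hu => h1 hu
  obtain ⟨S', hS's, hc⟩ := hg.semisimple _ hSs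
  have hbot : HB ⊓ S' = ⊥ := by
    by_contra hne
    obtain ⟨U, hU, hUs⟩ := exists_simple_le (V := HB ⊓ S') (fun X hX u hu => ⟨h X hX u hu.1, hS's X hX u hu.2⟩) hne
    have h1 : U ≤ sSup {V | IsSimpleSub g V ∧ V ≤ HB} := le_sSup ⟨hUs, hU.trans inf_le_left⟩
    have h2 : U ≤ sSup {V | IsSimpleSub g V ∧ V ≤ HB} ⊓ S' := le_inf h1 (hU.trans inf_le_right)
    rw [hc.inf_eq_bot] at h2
    exact hUs.1 (le_bot_iff.1 h2)
  have h1 : (sSup {V | IsSimpleSub g V ∧ V ≤ HB} ⊔ S') ⊓ HB = sSup {V | IsSimpleSub g V ∧ V ≤ HB} ⊔ S' ⊓ HB :=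
    sup_inf_assoc_of_le S' hS
  rw [hc.sup_eq_top, top_inf_eq, inf_comm S' HB, hbot, sup_bot_eq] at h1
  exact h1.le

end TUT
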