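import Pool.Agent.Lib.MP_021685_agUZ.ZD

/-!
# Products of pairings and of combinations of products of pairings
-/

set_option autoImplicit false

namespace TUT

open Module Pool.Agent.Lib.MP_021685_agO

section

variable {H : Type} [AddCommGroup H] [Module ℂ H] {m d s : ℕ}

private theorem Z5_updl (β : Fin m → MultilinearMap ℂ (fun _ : Fin 2 => H) ℂ) [DecidableEq ((Fin m × Fin 2) ⊕ Fin d)]
    (w : (Fin m × Fin 2) ⊕ Fin d → H) (r₀ : Fin m) (ε₀ : Fin 2) (x : H) :
    (∏ r, β r (fun ε => Function.update w (Sum.inl (r₀, ε₀)) x (Sum.inl (r, ε)))) =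
      β r₀ (Function.update (fun ε => w (Sum.inl (r₀, ε))) ε₀ x) *
        ∏ r ∈ Finset.univ.erase r₀, β r (fun ε => w (Sum.inl (r, ε))) := by
  rw [← Finset.mul_prod_erase Finset.univ _ (Finset.mem_univ r₀)]
  have h1 : (fun ε => Function.update w (Sum.inl (r₀, ε₀)) x (Sum.inl (r₀, ε))) =
      Function.update (fun ε => w (Sum.inl (r₀, ε))) ε₀ x := by
    funext ε
    by_cases h : ε = ε₀
    · rw [h, Function.update_self, Function.update_self]
    · rw [Function.update_of_ne h, Function.update_of_ne fun h2 => h (Prod.ext_iff.1 (Sum.inl_injective h2)).2]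
  rw [h1]
  refine congrArg _ (Finset.prod_congr rfl fun r hr => congrArg _ (funext fun ε => ?_))
  rw [Function.update_of_ne fun h2 => (Finset.mem_erase.1 hr).1 (Prod.ext_iff.1 (Sum.inl_injective h2)).1]

private theorem Z5_updr (Δ : MultilinearMap ℂ (fun _ : Fin d => H) ℂ) [DecidableEq ((Fin m × Fin 2) ⊕ Fin d)]
    (w : (Fin m × Fin 2) ⊕ Fin d → H) (t₀ : Fin d) (x : H) :
    Δ (fun t => Function.update w (Sum.inr t₀) x (Sum.inr t)) = Δ (Function.update (fun t => w (Sum.inr t)) t₀ x) := by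
  refine congrArg _ (funext fun t => ?_)
  by_cases h : t = t₀
  · rw [h, Function.update_self, Function.update_self]
  · rw [Function.update_of_ne h, Function.update_of_ne fun h2 => h (Sum.inr_injective h2)]

private theorem Z5_dl (Δ : MultilinearMap ℂ (fun _ : Fin d => H) ℂ) [DecidableEq ((Fin m × Fin 2) ⊕ Fin d)]
    (w : (Fin m × Fin 2) ⊕ Fin d → H) (y : Fin m × Fin 2) (x : H) :
    Δ (fun t => Function.update w (Sum.inl y) x (Sum.inr t)) = Δ (fun t => w (Sum.inr t)) := by
  refine congrArg _ (funext fun t => ?_)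
  rw [Function.update_of_ne Sum.inr_ne_inl]

private theorem Z5_dr (β : Fin m → MultilinearMap ℂ (fun _ : Fin 2 => H) ℂ) [DecidableEq ((Fin m × Fin 2) ⊕ Fin d)]
    (w : (Fin m × Fin 2) ⊕ Fin d → H) (t₀ : Fin d) (x : H) :
    (∏ r, β r (fun ε => Function.update w (Sum.inr t₀) x (Sum.inl (r, ε)))) = ∏ r, β r (fun ε => w (Sum.inl (r, ε))) := by
  refine Finset.prod_congr rfl fun r _ => congrArg _ (funext fun ε => ?_)
  rw [Function.update_of_ne Sum.inl_ne_inr]

/-- The product of the pairings and of `Δ`. -/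
private noncomputable def Z5_prod (β : Fin m → MultilinearMap ℂ (fun _ : Fin 2 => H) ℂ)
    (Δ : MultilinearMap ℂ (fun _ : Fin d => H) ℂ) : MultilinearMap ℂ (fun _ : (Fin m × Fin 2) ⊕ Fin d => H) ℂ where
  toFun w := (∏ r, β r (fun ε => w (Sum.inl (r, ε)))) * Δ (fun t => w (Sum.inr t))
  map_update_add' w i x y := by
    rcases i with ⟨r, ε⟩ | t
    · rw [Z5_updl, Z5_updl, Z5_updl, Z5_dl, Z5_dl, Z5_dl, MultilinearMap.map_update_add]
      ring
    · rw [Z5_dr, Z5_dr, Z5_dr, Z5_updr, Z5_updr, Z5_updr, MultilinearMap.map_update_add]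
      ring
  map_update_smul' w i a x := by
    rcases i with ⟨r, ε⟩ | t
    · rw [Z5_updl, Z5_updl, Z5_dl, Z5_dl, MultilinearMap.map_update_smul, smul_eq_mul, smul_eq_mul]
      ring
    · rw [Z5_dr, Z5_dr, Z5_updr, Z5_updr, MultilinearMap.map_update_smul, smul_eq_mul, smul_eq_mul]
      ring

/-- The same with the arguments `Fin s`. -/
private noncomputable def Z5_form (p : (Fin m × Fin 2) ⊕ Fin d ≃ Fin s) (β : Fin m → MultilinearMap ℂ (fun _ : Fin 2 => H) ℂ)
    (Δ : MultilinearMap ℂ (fun _ : Fin d => H) ℂ) : MultilinearMap ℂ (fun _ : Fin s => H) ℂ :=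
  (Z5_prod β Δ).domDomCongr p

private theorem Z5_form_apply (p : (Fin m × Fin 2) ⊕ Fin d ≃ Fin s) (β : Fin m → MultilinearMap ℂ (fun _ : Fin 2 => H) ℂ)
    (Δ : MultilinearMap ℂ (fun _ : Fin d => H) ℂ) (v : Fin s → H) :
    Z5_form p β Δ v = (∏ r, β r (fun ε => v (p (Sum.inl (r, ε))))) * Δ (fun t => v (p (Sum.inr t))) := rfl

private theorem Z5_pair (b : MultilinearMap ℂ (fun _ : Fin 2 => H) ℂ) :
    ∃ e : H →ₗ[ℂ] H →ₗ[ℂ] ℂ, ∀ v : Fin 2 → H, b v = e (v 0) (v 1) := by
  have hu0 : ∀ u v x : H, (![x, v] : Fin 2 → H) = Function.update ![u, v] 0 x := fun u v x => by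
    funext j
    fin_cases j
    · rfl
    · rfl
  have hu1 : ∀ u v x : H, (![u, x] : Fin 2 → H) = Function.update ![u, v] 1 x := fun u v x => by
    funext j
    fin_cases j
    · rfl
    · rfl
  refine ⟨LinearMap.mk₂ ℂ (fun u v => b ![u, v]) (fun u u' v => ?_) (fun a u v => ?_) (fun u v v' => ?_) (fun a u v => ?_), ?_⟩
  · rw [hu0 0 v (u + u'), MultilinearMap.map_update_add, ← hu0, ← hu0]
  · rw [hu0 0 v (a • u), MultilinearMap.map_update_smul, ← hu0]
  · rw [hu1 u 0 (v + v'), MultilinearMap.map_update_add, ← hu1, ← hu1]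
  · rw [hu1 u 0 (a • v), MultilinearMap.map_update_smul, ← hu1]
  · intro v
    rw [LinearMap.mk₂_apply]
    refine congrArg _ (funext fun j => ?_)
    fin_cases j
    · rfl
    · rfl

/-- Two copies of `Fin m`. -/
private def Z5_E (m : ℕ) : Fin m ⊕ Fin m ≃ Fin m × Fin 2 where
  toFun := Sum.elim (fun r => (r, 0)) fun r => (r, 1)
  invFun x := if x.2 = 0 then Sum.inl x.1 else Sum.inr x.1
  left_inv x := by
    rcases x with r | r
    · exact if_pos rfl
    · exact if_neg (show ¬ ((1 : Fin 2) = 0) by decide)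
  right_inv x := by
    obtain ⟨r, ε⟩ := x
    fin_cases ε
    · rfl
    · rfl

end

theorem pg_mul {H : Type} [AddCommGroup H] [Module ℂ H] {G : Type} [Group G] {ρ : Representation ℂ G H} {μ : G →* ℂˣ} {m d s : ℕ}
    (p : (Fin m × Fin 2) ⊕ Fin d ≃ Fin s) (β : Fin m → MultilinearMap ℂ (fun _ : Fin 2 => H) ℂ)
    (hβ : ∀ r t (v : Fin 2 → H), β r (fun j => ρ t (v j)) = (μ t : ℂ) * β r v) (Δ : MultilinearMap ℂ (fun _ : Fin d => H) ℂ)
    (hΔ : Δ ∈ Submodule.span ℂ {T' : MultilinearMap ℂ (fun _ : Fin d => H) ℂ | IsPg ρ μ T'})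
    (T : MultilinearMap ℂ (fun _ : Fin s => H) ℂ)
    (hT : ∀ v, T v = (∏ r, β r (fun ε => v (p (Sum.inl (r, ε))))) * Δ (fun t => v (p (Sum.inr t)))) :
    T ∈ Submodule.span ℂ {T' : MultilinearMap ℂ (fun _ : Fin s => H) ℂ | IsPg ρ μ T'} := by
  have hTf : T = Z5_form p β Δ := MultilinearMap.ext fun v => by rw [hT, Z5_form_apply]
  rw [hTf]
  clear hTf hT T
  induction hΔ using Submodule.span_induction with
  | mem Δ hΔ =>
    obtain ⟨m', ε', β', hβ', hΔ'⟩ := hΔ
    choose b hb using fun r => Z5_pair (β r)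
    refine Submodule.subset_span ⟨m + m', (Equiv.sumCongr finSumFinEquiv.symm finSumFinEquiv.symm).trans
      ((Equiv.sumSumSumComm (Fin m) (Fin m') (Fin m) (Fin m')).trans ((Equiv.sumCongr (Z5_E m) ε').trans p)),
      fun j => Sum.elim b β' (finSumFinEquiv.symm j), fun j => ?_, fun v => ?_⟩
    · obtain ⟨x, rfl⟩ := finSumFinEquiv.surjective j
      intro t u w
      simp only [Equiv.symm_apply_apply]
      rcases x with r | r
      · have h1 := hβ r t ![u, w]
        rw [hb, hb] at h1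
        exact h1
      · exact hβ' r t u w
    · rw [Z5_form_apply, hΔ', Fin.prod_univ_add]
      refine congrArg₂ (· * ·) (Finset.prod_congr rfl fun r _ => ?_) (Finset.prod_congr rfl fun r _ => ?_)
      · rw [hb]
        have h1 : finSumFinEquiv.symm (Fin.castAdd m' r) = (Sum.inl r : Fin m ⊕ Fin m') := finSumFinEquiv_symm_apply_castAdd r
        simp only [Equiv.trans_apply, Equiv.sumCongr_apply, Sum.map_inl, Sum.map_inr, h1, Sum.elim_inl]
        rfl
      · have h1 : finSumFinEquiv.symm (Fin.natAdd m r) = (Sum.inr r : Fin m ⊕ Fin m') := finSumFinEquiv_symm_apply_natAdd r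
        simp only [Equiv.trans_apply, Equiv.sumCongr_apply, Sum.map_inl, Sum.map_inr, h1, Sum.elim_inr]
        rfl
  | zero =>
    have h1 : Z5_form p β (0 : MultilinearMap ℂ (fun _ : Fin d => H) ℂ) = 0 := MultilinearMap.ext fun v => by
      rw [Z5_form_apply, _root_.zero_apply, mul_zero, _root_.zero_apply]
    rw [h1]
    exact Submodule.zero_mem _
  | add x y _ _ hx hy =>
    have h1 : Z5_form p β (x + y) = Z5_form p β x + Z5_form p β y := MultilinearMap.ext fun v => by
      rw [_root_.add_apply, Z5_form_apply, Z5_form_apply, Z5_form_apply, _root_.add_apply, mul_add]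
    rw [h1]
    exact Submodule.add_mem _ hx hy
  | smul a x _ hx =>
    have h1 : Z5_form p β (a • x) = a • Z5_form p β x := MultilinearMap.ext fun v => by
      rw [_root_.smul_apply, Z5_form_apply, Z5_form_apply, _root_.smul_apply, smul_eq_mul, smul_eq_mul]
      ring
    rw [h1]
    exact Submodule.smul_mem _ _ hx

end TUT
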