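import Pool.Agent.Lib.MP_021685_agUX.YD
import Pool.Agent.Lib.MP_021685_agUT.M6

/-!
# From the product to the factor
-/

set_option autoImplicit false

namespace TUT

open TensorProduct Module Pool.Agent.Lib.MP_17a322_nt.VA Pool.Agent.Lib.MP_021685_agTT

variable {K : Type} [Field K] {l : ℕ} [Fact l.Prime] {V V' : Type} [AddCommGroup V] [Module ℚ_[l] V] [AddCommGroup V'] [Module ℚ_[l] V']

/-- The projection of the powers. -/
private def Z6_pr (k V' V : Type) [Field k] [AddCommGroup V] [Module k V] [AddCommGroup V'] [Module k V'] (n : ℕ) :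
    (Fin n → V' × V) →ₗ[k] (Fin n → V) :=
  LinearMap.pi fun t => LinearMap.snd k V' V ∘ₗ LinearMap.proj t

/-- The inclusion of the powers. -/
private def Z6_in (k V' V : Type) [Field k] [AddCommGroup V] [Module k V] [AddCommGroup V'] [Module k V'] (n : ℕ) :
    (Fin n → V) →ₗ[k] (Fin n → V' × V) :=
  LinearMap.pi fun t => LinearMap.inr k V' V ∘ₗ LinearMap.proj t

private theorem Z6_pr_in {n : ℕ} (v : Fin n → V) : Z6_pr ℚ_[l] V' V n (Z6_in ℚ_[l] V' V n v) = v := rfl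

private theorem Z6_pr_rep (ρ' : Representation ℚ_[l] (GalK K) V') (ρ : Representation ℚ_[l] (GalK K) V) {n : ℕ} (s : GalK K)
    (x : Fin n → V' × V) : Z6_pr ℚ_[l] V' V n (fun t => ρ'.prod ρ s (x t)) = fun t => ρ s (Z6_pr ℚ_[l] V' V n x t) := rfl

private theorem Z6_in_rep (ρ' : Representation ℚ_[l] (GalK K) V') (ρ : Representation ℚ_[l] (GalK K) V) {n : ℕ} (s : GalK K)
    (v : Fin n → V) : Z6_in ℚ_[l] V' V n (fun t => ρ s (v t)) = fun t => ρ'.prod ρ s (Z6_in ℚ_[l] V' V n v t) := by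
  funext t
  refine Prod.ext ?_ rfl
  show (0 : V') = ρ' s 0
  rw [map_zero]

private theorem Z6_two {ρ' : Representation ℚ_[l] (GalK K) V'} {ρ : Representation ℚ_[l] (GalK K) V} {n : ℕ}
    {L' : IntermediateField K (AlgebraicClosure K)} {D : (Fin n → V' × V) →ₗ[ℚ_[l]] (Fin n → V' × V) →ₗ[ℚ_[l]] ℚ_[l]}
    (hD : IsTateTwo (fun (s : GalK K) (v : Fin n → V' × V) (t : Fin n) => ρ'.prod ρ s (v t)) L' D) :
    IsTateTwo (fun (s : GalK K) (v : Fin n → V) (t : Fin n) => ρ s (v t)) L'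
      (D.compl₁₂ (Z6_in ℚ_[l] V' V n) (Z6_in ℚ_[l] V' V n)) := by
  refine ⟨fun v => hD.1 _, fun s hs v w => ?_⟩
  rw [LinearMap.compl₁₂_apply, LinearMap.compl₁₂_apply, Z6_in_rep ρ' ρ s v, Z6_in_rep ρ' ρ s w]
  exact hD.2 s hs _ _

theorem generated_snd {ρ' : Representation ℚ_[l] (GalK K) V'} {ρ : Representation ℚ_[l] (GalK K) V}
    (h : Generated (ρ'.prod ρ) (Representation.trivial ℚ_[l] (GalK K) ℚ_[l])) :
    Generated ρ (Representation.trivial ℚ_[l] (GalK K) ℚ_[l]) := by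
  intro n j i L hL
  obtain ⟨h1, h2⟩ := h n j i L hL
  refine ⟨fun T hT => ?_, fun T hT => ?_⟩
  · obtain ⟨L', hL', r, D, y, hD, hy, hsum⟩ := h1 (T.compLinearMap (Z6_pr ℚ_[l] V' V n)) (fun s hs v w => by
      rw [AlternatingMap.compLinearMap_apply, AlternatingMap.compLinearMap_apply]
      exact hT s hs (fun a => Z6_pr ℚ_[l] V' V n (v a)) w)
    refine ⟨L', hL', r, fun a b => (D a b).compl₁₂ (Z6_in ℚ_[l] V' V n) (Z6_in ℚ_[l] V' V n), y, fun a b => Z6_two (hD a b), hy,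
      fun v w => ?_⟩
    exact hsum (fun a => Z6_in ℚ_[l] V' V n (v a)) w
  · have h3 := h2 (T.compLinearMap (Z6_pr ℚ_[l] V' V n)) (fun s hs v w => by
      rw [AlternatingMap.compLinearMap_apply, AlternatingMap.compLinearMap_apply]
      exact hT s hs (fun a => Z6_pr ℚ_[l] V' V n (v a)) w)
    refine AlternatingMap.ext fun v => ?_
    exact DFunLike.congr_fun h3 fun a => Z6_in ℚ_[l] V' V n (v a)

theorem fourTate_snd {ρ' : Representation ℚ_[l] (GalK K) V'} {ρ : Representation ℚ_[l] (GalK K) V}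
    (h : FourTate (ρ'.prod ρ) 1) : FourTate ρ 1 := by
  intro i L hL T hT _
  obtain ⟨L', hL', r, D, y, hD, hsum⟩ := h i L hL (T.compLinearMap (Z6_pr ℚ_[l] V' V 4)) (fun s hs v => by
    rw [AlternatingMap.compLinearMap_apply, AlternatingMap.compLinearMap_apply]
    exact hT s hs (fun a => Z6_pr ℚ_[l] V' V 4 (v a))) (fun v => rfl)
  refine ⟨L', hL', r, fun a b => (D a b).compl₁₂ (Z6_in ℚ_[l] V' V 4) (Z6_in ℚ_[l] V' V 4), y, fun a b => Z6_two (hD a b),
    fun v => ?_⟩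
  exact hsum fun a => Z6_in ℚ_[l] V' V 4 (v a)

end TUT
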