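import Pool.Agent.Lib.MP_021685_agUZ.ZD
import Pool.Agent.Lib.MP_021685_agUT.M6

/-!
# Tate forms which are zero as soon as one argument is in the part of the first factor
-/

set_option autoImplicit false

namespace TUT

open TensorProduct Module Pool.Agent.Lib.MP_17a322_nt.VA Pool.Agent.Lib.MP_021685_agTT

private theorem Z7_pair {H : Type} [AddCommGroup H] [Module ℂ H] [FiniteDimensional ℂ H] {G : Type} [Group G]
    {ρ : Representation ℂ G H} {μ : G →* ℂˣ} {e : H →ₗ[ℂ] H →ₗ[ℂ] ℂ}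
    (he : ∀ s u v, e (ρ s u) (ρ s v) = (μ s : ℂ) * e u v) (hn : ∀ u, (∀ v, e u v = 0) → u = 0) {G' : Subgroup G}
    (hend : ∀ φ : Module.End ℂ H, (∀ s ∈ G', φ * ρ s = ρ s * φ) → ∀ s, φ * ρ s = ρ s * φ)
    (β : H →ₗ[ℂ] H →ₗ[ℂ] ℂ) (hβ : ∀ s ∈ G', ∀ u v, β (ρ s u) (ρ s v) = (μ s : ℂ) * β u v) (s : G) (u v : H) :
    β (ρ s u) (ρ s v) = (μ s : ℂ) * β u v := by
  have hinj : Function.Injective e := by
    rw [injective_iff_map_eq_zero]
    intro v hv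
    exact hn v fun w => by rw [hv, LinearMap.zero_apply]
  have hdim : finrank ℂ H = finrank ℂ (H →ₗ[ℂ] ℂ) := (Subspace.dual_finrank_eq (K := ℂ) (V := H)).symm
  obtain ⟨φ, hφ⟩ : ∃ φ : End ℂ H, ∀ x, e (φ x) = β x := by
    refine ⟨(LinearMap.linearEquivOfInjective e hinj hdim).symm.toLinearMap ∘ₗ β, fun x => ?_⟩
    exact (LinearMap.linearEquivOfInjective e hinj hdim).apply_symm_apply (β x)
  have h1 : ∀ s ∈ G', φ * ρ s = ρ s * φ := by
    intro s hs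
    refine LinearMap.ext fun x => ?_
    have h2 : ∀ w, e (φ (ρ s x) - ρ s (φ x)) w = 0 := by
      intro w
      have h3 : w = ρ s (ρ s⁻¹ w) := by
        rw [← Module.End.mul_apply, ← map_mul, mul_inv_cancel, map_one, Module.End.one_apply]
      rw [map_sub, LinearMap.sub_apply, h3, he, hφ, hφ, hβ s hs]
      ring
    exact sub_eq_zero.1 (hn _ h2)
  have h4 : φ (ρ s u) = ρ s (φ u) := LinearMap.congr_fun (hend φ h1 s) u
  rw [← hφ, ← hφ, h4, he]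

theorem tate_snd {K : Type} [Field K] {l : ℕ} [Fact l.Prime] [Algebra ℚ_[l] ℂ] {V V' : Type} [AddCommGroup V]
    [Module ℚ_[l] V] [FiniteDimensional ℚ_[l] V] [AddCommGroup V'] [Module ℚ_[l] V'] [FiniteDimensional ℚ_[l] V']
    {ρ' : Representation ℚ_[l] (GalK K) V'} {ρ : Representation ℚ_[l] (GalK K) V}
    (h : Generated ρ (Representation.trivial ℚ_[l] (GalK K) ℚ_[l]))
    {e : (ℂ ⊗[ℚ_[l]] (V' × V)) →ₗ[ℂ] (ℂ ⊗[ℚ_[l]] (V' × V)) →ₗ[ℂ] ℂ}
    (he : ∀ s u v, e (repC (ρ'.prod ρ) s u) (repC (ρ'.prod ρ) s v) = (charC (cyc K l) s : ℂ) * e u v)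
    (hn : ∀ u, (∀ v, e u v = 0) → u = 0)
    (hend : ∀ L : IntermediateField K (AlgebraicClosure K), FiniteDimensional K L →
      ∀ φ : Module.End ℂ (ℂ ⊗[ℚ_[l]] (V' × V)), (∀ s ∈ L.fixingSubgroup, φ * repC (ρ'.prod ρ) s = repC (ρ'.prod ρ) s * φ) →
        ∀ s, φ * repC (ρ'.prod ρ) s = repC (ρ'.prod ρ) s * φ)
    (L : IntermediateField K (AlgebraicClosure K)) (hL : FiniteDimensional K L) {k : ℕ} (i : ℤ)
    (T : MultilinearMap ℂ (fun _ : Fin k => ℂ ⊗[ℚ_[l]] (V' × V)) ℂ)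
    (hT : IsTt (repC (ρ'.prod ρ)) (charC (cyc K l)) L.fixingSubgroup i T)
    (h0 : ∀ v, (∃ t, v t ∈ LinearMap.range ((LinearMap.inl ℚ_[l] V' V).baseChange ℂ)) → T v = 0) :
    T ∈ Submodule.span ℂ {T' : MultilinearMap ℂ (fun _ : Fin k => ℂ ⊗[ℚ_[l]] (V' × V)) ℂ |
      IsPg (repC (ρ'.prod ρ)) (charC (cyc K l)) T'} := by
  classical
  obtain ⟨ib, hib⟩ : ∃ ib : (ℂ ⊗[ℚ_[l]] V) →ₗ[ℂ] ℂ ⊗[ℚ_[l]] (V' × V), ib = (LinearMap.inr ℚ_[l] V' V).baseChange ℂ := ⟨_, rfl⟩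
  obtain ⟨qb, hqb⟩ : ∃ qb : (ℂ ⊗[ℚ_[l]] (V' × V)) →ₗ[ℂ] ℂ ⊗[ℚ_[l]] V, qb = (LinearMap.snd ℚ_[l] V' V).baseChange ℂ := ⟨_, rfl⟩
  have hsum : ∀ x, ib (qb x) + (LinearMap.inl ℚ_[l] V' V).baseChange ℂ ((LinearMap.fst ℚ_[l] V' V).baseChange ℂ x) = x := by
    intro x
    have h1 : (LinearMap.inr ℚ_[l] V' V) ∘ₗ (LinearMap.snd ℚ_[l] V' V) +
        (LinearMap.inl ℚ_[l] V' V) ∘ₗ (LinearMap.fst ℚ_[l] V' V) = LinearMap.id := by
      refine LinearMap.ext fun y => ?_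
      show ((0 : V'), y.2) + (y.1, (0 : V)) = y
      rw [Prod.mk_add_mk, zero_add, add_zero]
    have h2 := congrArg (fun f : (V' × V) →ₗ[ℚ_[l]] (V' × V) => f.baseChange ℂ x) h1
    simp only [LinearMap.baseChange_add, LinearMap.baseChange_comp, LinearMap.baseChange_id] at h2
    rw [hib, hqb]
    exact h2
  have hq : ∀ s x, qb (repC (ρ'.prod ρ) s x) = repC ρ s (qb x) := by
    intro s x
    have h1 : (LinearMap.snd ℚ_[l] V' V) ∘ₗ (ρ'.prod ρ) s = ρ s ∘ₗ (LinearMap.snd ℚ_[l] V' V) := rfl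
    have h2 := congrArg (fun f : (V' × V) →ₗ[ℚ_[l]] V => f.baseChange ℂ x) h1
    simp only [LinearMap.baseChange_comp] at h2
    rw [hqb]
    exact h2
  have hi : ∀ s x, ib (repC ρ s x) = repC (ρ'.prod ρ) s (ib x) := by
    intro s x
    have h1 : (LinearMap.inr ℚ_[l] V' V) ∘ₗ ρ s = (ρ'.prod ρ) s ∘ₗ (LinearMap.inr ℚ_[l] V' V) := by
      refine LinearMap.ext fun y => ?_
      show ((0 : V'), ρ s y) = (ρ' s 0, ρ s y)
      rw [map_zero]
    have h2 := congrArg (fun f : V →ₗ[ℚ_[l]] (V' × V) => f.baseChange ℂ x) h1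
    simp only [LinearMap.baseChange_comp] at h2
    rw [hib]
    exact h2
  have hT' : IsTt (repC ρ) (charC (cyc K l)) L.fixingSubgroup i (T.compLinearMap fun _ => ib) := by
    intro s hs v
    show T (fun j => ib (repC ρ s (v j))) = _ * T (fun j => ib (v j))
    rw [← hT s hs]
    exact congrArg T (funext fun j => hi s (v j))
  have hTq : T = (T.compLinearMap fun _ => ib).compLinearMap fun _ => qb := by
    refine MultilinearMap.ext fun v => ?_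
    show T v = T (fun j => ib (qb (v j)))
    have h1 : v = (fun j => ib (qb (v j))) + fun j => (LinearMap.inl ℚ_[l] V' V).baseChange ℂ ((LinearMap.fst ℚ_[l] V' V).baseChange ℂ (v j)) :=
      funext fun j => (hsum (v j)).symm
    conv_lhs => rw [h1]
    rw [MultilinearMap.map_add_univ, Finset.sum_eq_single Finset.univ]
    · rw [Finset.piecewise_univ]
    · intro t _ ht
      obtain ⟨a, ha⟩ : ∃ a, a ∉ t := by
        by_contra hcon
        push Not at hcon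
        exact ht (Finset.eq_univ_iff_forall.2 hcon)
      refine h0 _ ⟨a, ?_⟩
      rw [Finset.piecewise_eq_of_notMem _ _ _ ha]
      exact ⟨_, rfl⟩
    · intro hcon
      exact absurd (Finset.mem_univ _) hcon
  have hcore := core_of_generated h L hL i _ hT'
  rw [hTq]
  have key : ∀ S ∈ Submodule.span ℂ {T' : MultilinearMap ℂ (fun _ : Fin k => ℂ ⊗[ℚ_[l]] V) ℂ | ∃ (L' : IntermediateField K (AlgebraicClosure K)) (m : ℕ)
      (ε : Fin m ⊕ Fin m ≃ Fin k) (β : Fin m → (ℂ ⊗[ℚ_[l]] V) →ₗ[ℂ] (ℂ ⊗[ℚ_[l]] V) →ₗ[ℂ] ℂ), FiniteDimensional K L' ∧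
      (∀ j, TGR.IsPairing (repC ρ) (charC (cyc K l)) L'.fixingSubgroup (β j)) ∧
      ∀ v, T' v = ∏ j, β j (v (ε (Sum.inl j))) (v (ε (Sum.inr j)))},
      S.compLinearMap (fun _ => qb) ∈ Submodule.span ℂ {T' : MultilinearMap ℂ (fun _ : Fin k => ℂ ⊗[ℚ_[l]] (V' × V)) ℂ |
        IsPg (repC (ρ'.prod ρ)) (charC (cyc K l)) T'} := by
    intro S hS
    induction hS using Submodule.span_induction with
    | mem S hS =>
      obtain ⟨L', m, ε, β, hL', hβ, hS⟩ := hS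
      refine Submodule.subset_span ⟨m, ε, fun j => (β j).compl₁₂ qb qb, fun j s u v => ?_, fun v => hS _⟩
      refine Z7_pair he hn (hend L' hL') ((β j).compl₁₂ qb qb) (fun s hs u v => ?_) s u v
      show β j (qb (repC (ρ'.prod ρ) s u)) (qb (repC (ρ'.prod ρ) s v)) = _ * β j (qb u) (qb v)
      rw [hq, hq]
      exact hβ j s hs _ _
    | zero => exact Submodule.zero_mem _
    | add x y _ _ hx hy => exact Submodule.add_mem _ hx hy
    | smul a x _ hx => exact Submodule.smul_mem _ a hx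
  exact key _ hcore

end TUT
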