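import Pool.Agent.Lib.MP_021685_agUZ.Z3
import Pool.Agent.Lib.MP_021685_agUZ.Z4
import Pool.Agent.Lib.MP_021685_agUZ.Z5
import Pool.Agent.Lib.MP_021685_agO.OMain
import Pool.Agent.Lib.MP_021685_agO6.F3

/-! The forms on `H` are generated by pairings. -/

set_option autoImplicit false

namespace TUT

open Module Pool.Agent.Lib.MP_021685_agO Pool.Agent.Lib.MP_021685_agO6

variable {H : Type} [AddCommGroup H] [Module ℂ H] [FiniteDimensional ℂ H] {G : Type} [Group G]
  {ρ : Representation ℂ G H} {μ : G →* ℂˣ} {P : Subgroup G → Prop} {g : Submodule ℂ (Module.End ℂ H)} {c : Module.End ℂ H → ℂ}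
  {HB : Submodule ℂ H} {e : H →ₗ[ℂ] H →ₗ[ℂ] ℂ}

omit [FiniteDimensional ℂ H] in
/-- A form which is zero as soon as one argument is in `HB` depends only on the projections of the arguments along `HB`. -/
theorem eq_comp_proj {k : ℕ} (Δ : MultilinearMap ℂ (fun _ : Fin k => H) ℂ) (h0 : ∀ v, (∃ t, v t ∈ HB) → Δ v = 0)
    (q : Module.End ℂ H) (hq : ∀ x, x - q x ∈ HB) (v : Fin k → H) : Δ v = Δ (fun j => q (v j)) := by
  classical
  have key : ∀ S : Finset (Fin k), Δ v = Δ (fun j => if j ∈ S then q (v j) else v j) := by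
    intro S
    induction S using Finset.induction_on with
    | empty => simp
    | insert a S ha ih =>
      rw [ih]
      have h1 : (fun j => if j ∈ S then q (v j) else v j) =
          Function.update (fun j => if j ∈ S then q (v j) else v j) a (v a) := by
        funext j
        by_cases hj : j = a
        · subst hj
          rw [Function.update_self, if_neg ha]
        · rw [Function.update_of_ne hj]
      have h2 : (fun j => if j ∈ insert a S then q (v j) else v j) =
          Function.update (fun j => if j ∈ S then q (v j) else v j) a (q (v a)) := by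
        funext j
        by_cases hj : j = a
        · subst hj
          rw [Function.update_self, if_pos (Finset.mem_insert_self _ _)]
        · rw [Function.update_of_ne hj]
          simp only [Finset.mem_insert, hj, false_or]
      rw [h1, h2, ← sub_eq_zero, ← MultilinearMap.map_update_sub]
      refine h0 _ ⟨a, ?_⟩
      rw [Function.update_self]
      exact hq _
  rw [key Finset.univ]
  simp

theorem IsMixed.core (hM : IsMixed ρ μ P g c HB) (hP : ∃ G', P G') (he : ∀ s u v, e (ρ s u) (ρ s v) = (μ s : ℂ) * e u v)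
    (hn : ∀ u, (∀ v, e u v = 0) → u = 0) (q : Module.End ℂ H) (hq : ∀ s, q * ρ s = ρ s * q) (hqB : ∀ x ∈ HB, q x = 0)
    (hqq : ∀ x, x - q x ∈ HB)
    (h4 : ∀ G', P G' → ∀ T : MultilinearMap ℂ (fun _ : Fin 4 => H) ℂ, IsTt ρ μ G' 2 T →
      T ∈ Submodule.span ℂ {T' : MultilinearMap ℂ (fun _ : Fin 4 => H) ℂ | IsPg ρ μ T'})
    (hΔ : ∀ G', P G' → ∀ (d : ℕ) (i : ℤ) (Δ : MultilinearMap ℂ (fun _ : Fin d => H) ℂ), IsTt ρ μ G' i Δ →
      (∀ v, (∃ t, v t ∈ HB) → Δ v = 0) → Δ ∈ Submodule.span ℂ {T' : MultilinearMap ℂ (fun _ : Fin d => H) ℂ | IsPg ρ μ T'})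
    {G' : Subgroup G} (hG' : P G') {k : ℕ} (i : ℤ) (T : MultilinearMap ℂ (fun _ : Fin k => H) ℂ) (hT : IsTt ρ μ G' i T) :
    T ∈ Submodule.span ℂ {T' : MultilinearMap ℂ (fun _ : Fin k => H) ℂ | IsPg ρ μ T'} := by
  classical
  by_cases hT0 : T = 0
  · rw [hT0]
    exact Submodule.zero_mem _
  have hkill : ∀ X ∈ g, ∀ v, ∑ j, T (Function.update v j (X (v j))) = i * c X * T v :=
    (hM.tate k i T).2 (Submodule.subset_span ⟨G', hG', hT⟩)
  have hki : (k : ℤ) = 2 * i := by
    obtain ⟨v, hv⟩ : ∃ v, T v ≠ 0 := by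
      by_contra hcon
      push Not at hcon
      exact hT0 (MultilinearMap.ext hcon)
    have h1 := hkill 1 hM.one v
    have h2 : ∀ j, Function.update v j ((1 : Module.End ℂ H) (v j)) = v := fun j => by
      rw [Module.End.one_apply, Function.update_eq_self]
    rw [Finset.sum_congr rfl fun j _ => by rw [h2 j], Finset.sum_const, Finset.card_univ, Fintype.card_fin, nsmul_eq_mul,
      hM.two] at h1
    have h3 := mul_right_cancel₀ hv h1
    have h4 : ((k : ℤ) : ℂ) = ((2 * i : ℤ) : ℂ) := by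
      push_cast
      rw [h3]
      ring
    exact_mod_cast h4
  have hfm : ∀ (d : ℕ) (i' : ℤ), (d : ℤ) = 2 * i' → ∀ Δ : MultilinearMap ℂ (fun _ : Fin d => H) ℂ, IsTateForm g c d Δ ↔
      ∀ X ∈ g, ∀ v, ∑ j, Δ (Function.update v j (X (v j))) = i' * c X * Δ v := by
    intro d i' hd Δ
    have h1 : ((d : ℂ)) / 2 = (i' : ℂ) := by
      have h2 : ((d : ℤ) : ℂ) = ((2 * i' : ℤ) : ℂ) := by rw [hd]
      push_cast at h2
      rw [h2]
      ring
    unfold IsTateForm
    rw [h1]
  have hst : ∀ φ : Module.End ℂ H, (∀ s, φ * ρ s = ρ s * φ) → ∀ X ∈ g, φ * X = X * φ := fun φ hφ =>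
    (hM.comm_iff hP he hn φ).2 hφ
  have hqid : ∀ x, q (q x) = q x := fun x => by
    have h1 := hqB _ (hqq x)
    rw [map_sub, sub_eq_zero] at h1
    exact h1.symm
  have hqg := hst q hq
  have hB : ∀ x, q x = 0 → x ∈ HB := fun x hx => by
    have h1 := hqq x
    rw [hx, sub_zero] at h1
    exact h1
  have hc : IsCompl (LinearMap.range q) HB := by
    refine ⟨Submodule.disjoint_def.2 ?_, codisjoint_iff.2 (eq_top_iff.2 fun x _ => ?_)⟩
    · rintro _ ⟨y, rfl⟩ hy
      rw [← hqid, hqB _ hy]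
    · exact Submodule.mem_sup.2 ⟨q x, ⟨x, rfl⟩, x - q x, hqq x, by abel⟩
  have h₀ : IsStable g (LinearMap.range q) := by
    rintro X hX _ ⟨y, rfl⟩
    exact ⟨X y, LinearMap.congr_fun (hqg X hX) y⟩
  have h₁ : IsStable g HB := fun X hX x hx => hB _ (by
    have h1 := LinearMap.congr_fun (hqg X hX) x
    rw [Module.End.mul_apply, Module.End.mul_apply, hqB x hx, map_zero] at h1
    exact h1)
  have hHom : ∀ φ : Module.End ℂ H, (∀ X ∈ g, φ * X = X * φ) → ∀ u ∈ HB, φ u ∈ HB := fun φ hφ => by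
    obtain ⟨G₁, hG₁⟩ := hP
    exact (hM.endo G₁ hG₁ φ fun s _ => (hM.comm_iff ⟨G₁, hG₁⟩ he hn φ).1 hφ s).2
  have hodd : HB ≤ sSup {V | OddSimple g c V ∨ OddDiv g c V} :=
    (le_sSup_simple hM.alg h₁).trans (sSup_le_sSup fun V hV => Or.inl
      (OddFour.oddSimple hM.alg (hM.oddFour hP he hn h4 hV.1 hV.2)))
  have hgen : IsGenOver g c HB k T := main hM.alg hc h₀ h₁ hHom hodd k T ((hfm k i hki T).2 hkill)
  unfold IsGenOver at hgen
  refine (Submodule.span_le.2 ?_) hgen
  rintro T' ⟨m, d, p, β, Δ, hβ, hΔt, hΔ0, hT'⟩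
  have hcard := Fintype.card_congr p
  rw [Fintype.card_sum, Fintype.card_prod, Fintype.card_fin, Fintype.card_fin, Fintype.card_fin, Fintype.card_fin] at hcard
  have hd : (d : ℤ) = 2 * (i - m) := by
    have h1 : ((m * 2 + d : ℕ) : ℤ) = k := by rw [hcard]
    push_cast at h1
    rw [hki] at h1
    linarith
  refine pg_mul p β (fun r t v => hM.pairing hP he hn (β r) (hβ r) t v) Δ ?_ T' hT'
  have h5 := (hM.tate d (i - m) Δ).1 ((hfm d (i - m) hd Δ).1 hΔt)
  -- composition with the projection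
  let L : MultilinearMap ℂ (fun _ : Fin d => H) ℂ →ₗ[ℂ] MultilinearMap ℂ (fun _ : Fin d => H) ℂ :=
    { toFun := fun D => D.compLinearMap fun _ => q
      map_add' := fun x y => rfl
      map_smul' := fun a x => rfl }
  have hL : L Δ = Δ := MultilinearMap.ext fun v => (eq_comp_proj Δ hΔ0 q hqq v).symm
  rw [← hL]
  have h6 : L Δ ∈ (Submodule.span ℂ {T' : MultilinearMap ℂ (fun _ : Fin d => H) ℂ | ∃ G', P G' ∧ IsTt ρ μ G' (i - m) T'}).map L :=
    Submodule.mem_map_of_mem h5
  rw [Submodule.map_span] at h6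
  refine (Submodule.span_le.2 ?_) h6
  rintro _ ⟨D, ⟨G₁, hG₁, hD⟩, rfl⟩
  refine hΔ G₁ hG₁ d (i - m) (L D) (fun s hs v => ?_) fun v hv => ?_
  · show D (fun j => q (ρ s (v j))) = _ * D (fun j => q (v j))
    have h7 : (fun j => q (ρ s (v j))) = fun j => ρ s (q (v j)) := funext fun j => LinearMap.congr_fun (hq s) (v j)
    rw [h7, hD s hs]
  · obtain ⟨t, ht⟩ := hv
    show D (fun j => q (v j)) = 0
    exact D.map_coord_zero t (hqB _ ht)

end TUT
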