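import Pool.Agent.Lib.MP_021685_agUZ.Z8
import Pool.Agent.Lib.MP_021685_agUZ.Z7
import Pool.Agent.Lib.MP_021685_agUX.Y1
import Pool.Agent.Lib.MP_021685_agUT.L1
import Pool.Agent.Lib.MP_021685_agUT.K4

/-! Tate classes on a product `B × A`. -/

set_option autoImplicit false

namespace TUT

open TensorProduct Module Pool.Agent.Lib.MP_17a322_nt.VA Pool.Agent.Lib.MP_021685_agTT

/-- A pairing over a finite extension is a pairing for the whole group. -/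
theorem IsMixed.pairing_top {H : Type} [AddCommGroup H] [Module ℂ H] [FiniteDimensional ℂ H] {G : Type} [Group G]
    {ρ : Representation ℂ G H} {μ : G →* ℂˣ} {P : Subgroup G → Prop} {g : Submodule ℂ (Module.End ℂ H)}
    {c : Module.End ℂ H → ℂ} {HB : Submodule ℂ H} {e : H →ₗ[ℂ] H →ₗ[ℂ] ℂ} (hM : IsMixed ρ μ P g c HB)
    (he : ∀ s u v, e (ρ s u) (ρ s v) = (μ s : ℂ) * e u v) (hn : ∀ u, (∀ v, e u v = 0) → u = 0) {G' : Subgroup G} (hG' : P G')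
    (β : H →ₗ[ℂ] H →ₗ[ℂ] ℂ) (hβ : ∀ s ∈ G', ∀ u v, β (ρ s u) (ρ s v) = (μ s : ℂ) * β u v) (s : G) (u v : H) :
    β (ρ s u) (ρ s v) = (μ s : ℂ) * β u v := by
  have hinj : Function.Injective e := by
    rw [← LinearMap.ker_eq_bot, LinearMap.ker_eq_bot']
    intro x hx
    exact hn x fun y => by rw [hx]; rfl
  let E : H ≃ₗ[ℂ] (H →ₗ[ℂ] ℂ) := LinearEquiv.ofInjectiveOfFinrankEq e hinj (Subspace.dual_finrank_eq (K := ℂ) (V := H)).symm
  have hE : ∀ x, E x = e x := fun x => rfl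
  let φ : Module.End ℂ H := (E.symm : (H →ₗ[ℂ] ℂ) →ₗ[ℂ] H) ∘ₗ β
  have hφ : ∀ x y, e (φ x) y = β x y := fun x y => by
    have h1 : E (φ x) = β x := E.apply_symm_apply (β x)
    rw [← hE, h1]
  have hinv : ∀ (t : G) (x : H), ρ t (ρ t⁻¹ x) = x := fun t x => by
    rw [← Module.End.mul_apply, ← map_mul, mul_inv_cancel, map_one, Module.End.one_apply]
  have hcomm := (hM.endo G' hG' φ fun t ht => LinearMap.ext fun x => by
    refine sub_eq_zero.1 (hn _ fun y => ?_)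
    rw [Module.End.mul_apply, Module.End.mul_apply, map_sub, LinearMap.sub_apply, sub_eq_zero, hφ, ← hinv t y, hβ t ht,
      he t, hφ]).1 s
  rw [← hφ, ← hφ, ← he s]
  have h1 : φ (ρ s u) = ρ s (φ u) := LinearMap.congr_fun hcomm u
  rw [h1]

variable {K : Type} [Field K] {l : ℕ} [Fact l.Prime] [Algebra ℚ_[l] ℂ] {V V' : Type} [AddCommGroup V]
  [Module ℚ_[l] V] [FiniteDimensional ℚ_[l] V] [AddCommGroup V'] [Module ℚ_[l] V'] [FiniteDimensional ℚ_[l] V']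
  {ρ' : Representation ℚ_[l] (GalK K) V'} {ρ : Representation ℚ_[l] (GalK K) V}
  {e' : V' →ₗ[ℚ_[l]] V' →ₗ[ℚ_[l]] ℚ_[l]} {e : V →ₗ[ℚ_[l]] V →ₗ[ℚ_[l]] ℚ_[l]}
  {g : Submodule ℂ (Module.End ℂ (ℂ ⊗[ℚ_[l]] (V' × V)))} {c : Module.End ℂ (ℂ ⊗[ℚ_[l]] (V' × V)) → ℂ}

/-- The sum of two Weil forms. -/
theorem exists_formX (hw' : IsWeilForm (fun s => ρ' s) e') (hw : IsWeilForm (fun s => ρ s) e) :
    ∃ eX : (ℂ ⊗[ℚ_[l]] (V' × V)) →ₗ[ℂ] (ℂ ⊗[ℚ_[l]] (V' × V)) →ₗ[ℂ] ℂ,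
      (∀ s u v, eX (repC (ρ'.prod ρ) s u) (repC (ρ'.prod ρ) s v) = (charC (cyc K l) s : ℂ) * eX u v) ∧
        ∀ u, (∀ v, eX u v = 0) → u = 0 := by
  obtain ⟨hn', ha', hi'⟩ := hw'
  obtain ⟨hn, ha, hi⟩ := hw
  let f : (V' × V) →ₗ[ℚ_[l]] (V' × V) →ₗ[ℚ_[l]] ℚ_[l] :=
    e'.compl₁₂ (LinearMap.fst ℚ_[l] V' V) (LinearMap.fst ℚ_[l] V' V) + e.compl₁₂ (LinearMap.snd ℚ_[l] V' V) (LinearMap.snd ℚ_[l] V' V)
  have hf : ∀ x y, f x y = e' x.1 y.1 + e x.2 y.2 := fun x y => rfl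
  have hbot : ∀ s : GalK K, s ∈ (⊥ : IntermediateField K (AlgebraicClosure K)).fixingSubgroup := fun s => by
    rw [IntermediateField.fixingSubgroup_bot]
    exact Subgroup.mem_top s
  obtain ⟨eX, -, h2, h3⟩ := hasForm_repC (ρ'.prod ρ) (cyc K l) f (fun v => by rw [hf, ha', ha, add_zero]) (fun v hv => by
    refine Prod.ext (hn' _ fun w => ?_) (hn _ fun w => ?_)
    · have h1 := hv (w, 0)
      rw [hf, map_zero, add_zero] at h1
      exact h1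
    · have h1 := hv (0, w)
      rw [hf, map_zero, zero_add] at h1
      exact h1) (fun s v w => by
    rw [hf, hf]
    have h1 : e' (ρ' s v.1) (ρ' s w.1) = (cyc K l s : ℚ_[l]) * e' v.1 w.1 := hi' s (hbot s) v.1 w.1
    have h2 : e (ρ s v.2) (ρ s w.2) = (cyc K l s : ℚ_[l]) * e v.2 w.2 := hi s (hbot s) v.2 w.2
    show e' (ρ' s v.1) (ρ' s w.1) + e (ρ s v.2) (ρ s w.2) = _
    rw [h1, h2, mul_add])
  exact ⟨eX, h3, h2⟩

/-- The Tate classes on the powers of `B × A` are generated in degree two if this is so for `A` and in degree four for `B × A`. -/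
theorem mixed_generated (hw' : IsWeilForm (fun s => ρ' s) e') (hw : IsWeilForm (fun s => ρ s) e)
    (hM : IsMixed (repC (ρ'.prod ρ)) (charC (cyc K l)) (IsFix K) g c (LinearMap.range ((LinearMap.inl ℚ_[l] V' V).baseChange ℂ)))
    (h4 : FourTate (ρ'.prod ρ) 1) (hA : AllTate ρ) : AllTate (ρ'.prod ρ) := by
  obtain ⟨eX, he, hn⟩ := exists_formX hw' hw
  have hmono : ∀ {k : ℕ} (T : MultilinearMap ℂ (fun _ : Fin k => ℂ ⊗[ℚ_[l]] (V' × V)) ℂ),
      T ∈ Submodule.span ℂ {T' | ∃ (L' : IntermediateField K (AlgebraicClosure K)) (m : ℕ)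
        (ε : Fin m ⊕ Fin m ≃ Fin k) (β : Fin m → (ℂ ⊗[ℚ_[l]] (V' × V)) →ₗ[ℂ] (ℂ ⊗[ℚ_[l]] (V' × V)) →ₗ[ℂ] ℂ), FiniteDimensional K L' ∧
        (∀ j, TGR.IsPairing (repC (ρ'.prod ρ)) (charC (cyc K l)) L'.fixingSubgroup (β j)) ∧
        ∀ v, T' v = ∏ j, β j (v (ε (Sum.inl j))) (v (ε (Sum.inr j)))} →
      T ∈ Submodule.span ℂ {T' : MultilinearMap ℂ (fun _ : Fin k => ℂ ⊗[ℚ_[l]] (V' × V)) ℂ |
        IsPg (repC (ρ'.prod ρ)) (charC (cyc K l)) T'} := by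
    intro k T hT
    refine Submodule.span_mono ?_ hT
    rintro T' ⟨L', m, ε, β, hL', hβ, hT'⟩
    exact ⟨m, ε, β, fun j s u v => hM.pairing_top he hn ⟨L', hL', rfl⟩ (β j) (hβ j) s u v, hT'⟩
  let q₀ : Module.End ℚ_[l] (V' × V) := LinearMap.inr ℚ_[l] V' V ∘ₗ LinearMap.snd ℚ_[l] V' V
  let p₀ : Module.End ℚ_[l] (V' × V) := LinearMap.inl ℚ_[l] V' V ∘ₗ LinearMap.fst ℚ_[l] V' V
  have hpq : p₀ + q₀ = LinearMap.id := LinearMap.ext fun x => by
    show ((x.1, (0 : V)) + ((0 : V'), x.2) : V' × V) = x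
    rw [Prod.mk_add_mk, add_zero, zero_add]
  refine generated_of fun L hL k i T hT => ?_
  refine product_of_pg (fun T hT => ?_) (repC (Representation.trivial ℚ_[l] (GalK K) ℚ_[l])) (fun g w => ?_) T hT
  · refine hM.core isFix_bot he hn (q₀.baseChange ℂ) (fun s => ?_) (fun x hx => ?_) (fun x => ?_) (fun G' hG' T hT => ?_)
      (fun G' hG' d i Δ hΔ h0 => ?_) ⟨L, hL, rfl⟩ i T hT
    · have h1 : q₀ * (ρ'.prod ρ) s = (ρ'.prod ρ) s * q₀ := LinearMap.ext fun x => by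
        show ((0 : V'), ρ s x.2) = (ρ' s 0, ρ s x.2)
        rw [map_zero]
      show q₀.baseChange ℂ * ((ρ'.prod ρ) s).baseChange ℂ = ((ρ'.prod ρ) s).baseChange ℂ * q₀.baseChange ℂ
      rw [← LinearMap.baseChange_mul, ← LinearMap.baseChange_mul, h1]
    · obtain ⟨y, rfl⟩ := hx
      have h1 : q₀ ∘ₗ LinearMap.inl ℚ_[l] V' V = 0 := LinearMap.ext fun x => rfl
      have h2 : q₀.baseChange ℂ ∘ₗ (LinearMap.inl ℚ_[l] V' V).baseChange ℂ = 0 := by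
        rw [← LinearMap.baseChange_comp, h1, LinearMap.baseChange_zero]
      exact LinearMap.congr_fun h2 y
    · have h1 : x - q₀.baseChange ℂ x = p₀.baseChange ℂ x := by
        have h2 : p₀.baseChange ℂ x + q₀.baseChange ℂ x = x := by
          rw [← LinearMap.add_apply, ← LinearMap.baseChange_add, hpq, LinearMap.baseChange_id, LinearMap.id_apply]
        rw [sub_eq_iff_eq_add]
        exact h2.symm
      rw [h1]
      refine ⟨(LinearMap.fst ℚ_[l] V' V).baseChange ℂ x, ?_⟩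
      rw [← LinearMap.comp_apply, ← LinearMap.baseChange_comp]
    · obtain ⟨L', hL', rfl⟩ := hG'
      exact hmono T (core_of_four h4 L' hL' 2 T hT fun w => by
        rw [Module.End.one_eq_id, LinearMap.baseChange_id]
        rfl)
    · obtain ⟨L', hL', rfl⟩ := hG'
      exact tate_snd hA he hn (fun L₁ hL₁ φ hφ => (hM.endo _ ⟨L₁, hL₁, rfl⟩ φ hφ).1) L' hL' i Δ hΔ h0
  · show ((Representation.trivial ℚ_[l] (GalK K) ℚ_[l]) g).baseChange ℂ w = w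
    have h1 : (Representation.trivial ℚ_[l] (GalK K) ℚ_[l]) g = LinearMap.id := rfl
    rw [h1, LinearMap.baseChange_id]
    rfl

end TUT
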