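import Pool.Agent.Lib.MP_021685_agUT.H1
import Pool.Agent.Lib.MP_021685_agUT.P0
import Pool.Agent.Lib.MP_021685_agO.Defs

/-! Definitions used in the statement of `MP_021685_ag.UnitaryType`: the Lie algebra of the Galois group of a product `B × A`. -/

set_option autoImplicit false

namespace TUT

open Module Pool.Agent.Lib.MP_021685_agO

variable {H : Type} [AddCommGroup H] [Module ℂ H] {G : Type} [Group G]

/-- The theorems of Faltings, Bogomolov and Pink for the product `B × A` of two abelian varieties over `K`, `H = V_l (B × A) ⊗ ℂ` with the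
action `ρ` of the absolute Galois group `G` of `K`, `μ` the cyclotomic character, `P` the property of the subgroups of `G` to be the
Galois group of a finite extension of `K`, `HB` the part of `B`.  `g` is a Lie algebra of endomorphisms of `H` which acts semisimply and
is spanned by its Hodge elements, the idempotents `h` with `c h = 1`; it contains the scalars; a form `T` on `H ^ s` is killed by `g`
(with weight `i`) if and only if it is a combination of Tate forms of weight `i` over finite extensions of `K` (`g` is the Lie algebra of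
the image of the Galois group, with coefficients in `ℂ`).  The endomorphisms of `H` over finite extensions of `K` are endomorphisms over
`K` and map the part of `B` into itself (there are no homomorphisms from `B` to `A`), and no simple factor of `B` is of type III or
IV: on every subspace `U ≠ 0` of the part of `B` which is stable under the Galois group an alternating Tate form of degree two is
not zero. -/
structure IsMixed (ρ : Representation ℂ G H) (μ : G →* ℂˣ) (P : Subgroup G → Prop) (g : Submodule ℂ (Module.End ℂ H))
    (c : Module.End ℂ H → ℂ) (HB : Submodule ℂ H) : Prop where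
  alg : IsGaloisAlg g c
  one : (1 : Module.End ℂ H) ∈ g
  two : c 1 = 2
  tate : ∀ (s : ℕ) (i : ℤ) (T : MultilinearMap ℂ (fun _ : Fin s => H) ℂ),
    (∀ X ∈ g, ∀ v, ∑ j, T (Function.update v j (X (v j))) = i * c X * T v) ↔
      T ∈ Submodule.span ℂ {T' : MultilinearMap ℂ (fun _ : Fin s => H) ℂ | ∃ G', P G' ∧ IsTt ρ μ G' i T'}
  endo : ∀ G', P G' → ∀ φ : Module.End ℂ H, (∀ s ∈ G', φ * ρ s = ρ s * φ) → (∀ s, φ * ρ s = ρ s * φ) ∧ ∀ x ∈ HB, φ x ∈ HB
  types : ∀ U ≤ HB, U ≠ ⊥ → (∀ s, ∀ x ∈ U, ρ s x ∈ U) → ∃ β : H →ₗ[ℂ] H →ₗ[ℂ] ℂ,
    (∀ s u v, β (ρ s u) (ρ s v) = (μ s : ℂ) * β u v) ∧ (∀ v, β v v = 0) ∧ ∃ x ∈ U, ∃ y ∈ U, β x y ≠ 0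

end TUT
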