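import Pool.Agent.Lib.MP_021685_agUZ.Z9
import Pool.Agent.Lib.MP_021685_agUZ.Z6
import Pool.Agent.Lib.MP_021685_agUZ.UDZ
import Pool.Agent.Lib.MP_021685_agUX.YM

/-! The statement for `A` and for the products `B × A`. -/

set_option autoImplicit false

namespace TUT

open TensorProduct Pool.Agent.Lib.MP_17a322_nt.VA Pool.Agent.Lib.MP_021685_agTT

theorem mainB : MainB := by
  intro K _ M A l _ _ V _ _ _ ι ρ e D _ _ b r E _ _ c t n N hu
  refine ⟨hu.criterionAll, hu.separatedAll, ?_⟩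
  rintro M' B V' _ _ _ ι' ρ' e' _ hw' ⟨g, c', hM⟩
  have h1 : FourTate (ρ'.prod ρ) 1 → AllTate ρ → AllTate (ρ'.prod ρ) := fun h4 hA => mixed_generated hw' hu.weil hM h4 hA
  exact ⟨⟨fun h => ⟨four_of_all h 1, generated_snd h⟩, fun h => h1 h.1 h.2⟩, fun hS h => hu.nondeg hS (generated_snd h),
    fun hS h4 hnd => h1 h4 (hu.gen_four hS (fourTate_snd h4) hnd)⟩

end TUT
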